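import Mathlib
import Pool.Agent.Y959.Smp.Lq

set_option autoImplicit false

/-!
# Montgomery's `ℓ^q` inequality on random sets of integers, for all densities and all `q`

Q1 asks for `∑_{1 ≤ t ≤ T} |D(t)|^q ≤ C N^ε (N^q + T N^(q/2))`. Let `T ≥ N^k` and choose `M ≤ N^k`
integers of `[1, T]` independently at random (or one in each of `M` arbitrary progressions
`s_i, …, s_i + T - 1`). With probability `≥ 1 - N^(-A)`, for all `|b_n| ≤ 1` and all real `q ≥ 2` at once,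

`∑_{i ≤ M} |D(t_i)|^q ≤ C^q N^ε (N^q + M N^(q/2))`,

and for `q ≤ 2k` and all subsets `W` of the random set
`∑_{i ∈ W} |D(t_i)|^q ≤ C^q N^ε (N^q + (M/|W|)^(q/2k) |W| N^(q/2))`.

So the inequality of Q1 holds for random sets of every density `M/T`, with the number of the points in
place of `T`, when `T` is a power of `N`; for longer intervals it holds for the sets of `M ≤ N^k ≤ T`
points. The proof uses the sampling theorem for large values (`Pool/Agent/Y959/Smp`).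
-/

namespace Pool.Agent.Results.MP_2a1f0e_nt.RandomSetsEveryDensity

open Finset Pool.Agent.Y959.Smp Pool.Agent.Y959.Her

/-- `D(t) = ∑_{N ≤ n ≤ 2N} b_n n^{it}` -/
noncomputable def D (N : ℕ) (b : ℕ → ℂ) (t : ℝ) : ℂ :=
  ∑ n ∈ Icc N (2 * N), b n * (n : ℂ) ^ ((t : ℂ) * Complex.I)

theorem D_eq (N : ℕ) (hN : 1 ≤ N) (b : ℕ → ℂ) (t : ℝ) :
    D N b t = ∑ n ∈ Icc N (2 * N), b n * Pool.Agent.TH705.DL.ph t n := by
  unfold D
  apply sum_congr rfl
  intro n hn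
  have hn0 : (n : ℂ) ≠ 0 := by exact_mod_cast (by have := (mem_Icc.1 hn).1; omega : n ≠ 0)
  congr 1
  unfold Pool.Agent.TH705.DL.ph
  rw [Complex.cpow_def_of_ne_zero hn0, ← Complex.natCast_log]
  congr 1
  push_cast
  ring

/-- The property of the points `t_1, …, t_M`: for all coefficients bounded by `1`, all real `q ≥ 2` and
all sets `W` of indices the two bounds hold (`L` stands for `N^ε`). -/
def AllQ {M : ℕ} (N k : ℕ) (C L : ℝ) (t : Fin M → ℝ) : Prop :=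
  ∀ b : ℕ → ℂ, (∀ n ∈ Icc N (2 * N), ‖b n‖ ≤ 1) → ∀ q : ℝ, 2 ≤ q →
    (∑ i, ‖D N b (t i)‖ ^ q ≤ C ^ q * L * ((N : ℝ) ^ q + M * (N : ℝ) ^ (q / 2))) ∧
    (q ≤ 2 * k → ∀ W : Finset (Fin M), ∑ i ∈ W, ‖D N b (t i)‖ ^ q ≤
      C ^ q * L * ((N : ℝ) ^ q +
        ((W.card : ℝ) ^ (1 - q / (2 * k)) * (M : ℝ) ^ (q / (2 * k))) * (N : ℝ) ^ (q / 2)))

/-- **Main theorem.** -/
theorem result (k : ℕ) (hk : 1 ≤ k) (ε A : ℝ) (hε : 0 < ε) (hA : 0 ≤ A) :
    ∃ C : ℝ, 0 < C ∧ ∀ N M T : ℕ, 1 ≤ N → M ≤ N ^ k → N ^ k ≤ T → ∀ s : Fin M → ℝ,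
      (Nat.card {u : Fin M → Fin T //
        ¬ AllQ N k C ((N : ℝ) ^ ε) (fun i => s i + ((u i : ℕ) : ℝ))} : ℝ) ≤
          (N : ℝ) ^ (-A) * (T : ℝ) ^ M := by
  classical
  obtain ⟨C0, hC0, hcore⟩ := core_k (ε / 3) A k (by positivity) hA (Nat.cast_nonneg _) k hk
  obtain ⟨C, hC, hlq⟩ := lq_of_lvk k hk (ε / 3) C0 (by positivity) hC0
  refine ⟨C, hC, ?_⟩
  intro N M T hN hM hT s
  have hN1 : (1 : ℝ) ≤ N := by exact_mod_cast hN
  have hN0 : (0 : ℝ) < N := by linarith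
  have hMr : (M : ℝ) ≤ (N : ℝ) ^ k := by exact_mod_cast hM
  have hM' : ((Fintype.card (Fin M) : ℕ) : ℝ) ≤ ((2 * N : ℕ) : ℝ) ^ (k : ℝ) := by
    rw [Fintype.card_fin, Real.rpow_natCast]
    refine hMr.trans (pow_le_pow_left₀ hN0.le ?_ k)
    push_cast
    linarith
  have hT1 : 1 ≤ T := le_trans (Nat.one_le_pow _ _ hN) hT
  have hI : Icc N (2 * N) ⊆ Icc 1 (2 * N) := Icc_subset_Icc_left hN
  have h1 := hcore (2 * N) (Fin M) (by omega) hM' T hT1 (Icc N (2 * N)) hI s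
  rw [Fintype.card_fin] at h1
  have h2 : (((2 * N : ℕ) : ℝ)) ^ (-A) * (T : ℝ) ^ M ≤ (N : ℝ) ^ (-A) * (T : ℝ) ^ M := by
    apply mul_le_mul_of_nonneg_right _ (by positivity)
    apply Real.rpow_le_rpow_of_nonpos hN0 _ (by linarith)
    push_cast
    linarith
  refine le_trans ?_ (h1.trans h2)
  rw [Nat.card_eq_fintype_card, Fintype.card_subtype]
  have h3 : ∀ S T' : Finset (Fin M → Fin T), S ⊆ T' → (S.card : ℝ) ≤ (T'.card : ℝ) :=
    fun S T' h => by exact_mod_cast card_le_card h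
  apply h3
  intro u hu
  rw [mem_filter] at hu ⊢
  refine ⟨mem_univ _, fun hg => hu.2 ?_⟩
  have e3 : 3 * (ε / 3) = ε := by ring
  intro b hb q hq
  have h4 := hlq N M T (fun i => s i + ((u i : ℕ) : ℝ)) hN hMr hT hg b hb
  rw [e3] at h4
  refine ⟨?_, fun hqk W => ?_⟩
  · have h5 := (h4 univ q hq).2
    simpa only [D_eq N hN b] using h5
  · have h5 := (h4 W q hq).1 hqk
    simpa only [D_eq N hN b] using h5

end Pool.Agent.Results.MP_2a1f0e_nt.RandomSetsEveryDensity
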