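import Mathlib
import Pool.Agent.Y959.Rs.Lq3

set_option autoImplicit false

/-!
# Montgomery's `ℓ^q` inequality for all polynomials supported on a random set

Q1 asks for `∑_{1 ≤ t ≤ T} |D(t)|^q ≤ C N^ε (N^q + T N^(q/2))`, `D(t) = ∑_{N ≤ n ≤ 2N} b_n n^{it}`,
`|b_n| ≤ 1`, for all `q ≥ 2` and `N ≤ T ≤ N^A`. Here the support of `b` is a random set `I` of `k`
integers of `[N, 2N]`, `k ≤ N^(√2 - 1/2)` (density up to `N^(-0.0858)`), the coefficients `b_n`,
`n ∈ I`, are arbitrary. For all but a proportion `N^(-A)` of the sets `I` the inequality of Q1 holds,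
for ALL coefficients and for ALL real `q > 0` at once, with the constant `2^q C`.

More generally for `N^j ≤ T ≤ N^Q` it is enough that `k ≤ N^(1 - (√(j+1) - √j)²/2)`; the exponent
tends to `1` as `j → ∞`. For an arbitrary support the moments `2κ` give the inequality for
`k ≤ N^(1 - (√(j+1) - √j)²)` only.

Proof: on a random support the large value estimate coming from the `2κ`-th moment improves by the
factor `(k/N)^κ` (`Pool/Agent/Y959/Rs`), and one interpolates between the moments `2κ` and `2κ + 2`,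
`N^κ ≤ T ≤ N^(κ+1)`, at the critical exponent `q = 2 log T / log N`.
-/

namespace Pool.Agent.Results.MP_2a1f0e_nt.RandomSupports

open Finset

/-- The Dirichlet polynomial `D(t) = ∑_{n ∈ I} b_n n^{it}`. -/
noncomputable def D (I : Finset ℕ) (b : ℕ → ℂ) (t : ℝ) : ℂ :=
  ∑ n ∈ I, b n * Complex.exp (Complex.I * (t : ℂ) * (Real.log (n : ℝ) : ℂ))

/-- The inequality of Q1 for all coefficients on `I` and all exponents. -/
def AllQ (N T : ℕ) (C ε : ℝ) (I : Finset ℕ) : Prop :=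
  ∀ b : ℕ → ℂ, (∀ n, ‖b n‖ ≤ 1) → ∀ q : ℝ, 0 < q →
    ∑ t ∈ Icc 1 T, ‖D I b (t : ℝ)‖ ^ q ≤ 2 ^ q * C * (N : ℝ) ^ ε * ((N : ℝ) ^ q + T * (N : ℝ) ^ (q / 2))

open Classical in
theorem result (ε A : ℝ) (hε : 0 < ε) (hA : 0 ≤ A) (Q j : ℕ) (hj : 1 ≤ j) :
    ∃ C : ℝ, 0 < C ∧ ∀ N T k : ℕ, 1 ≤ N → (N : ℝ) ^ j ≤ T → (T : ℝ) ≤ (N : ℝ) ^ Q →
      (k : ℝ) ≤ (N : ℝ) ^ (1 - (Real.sqrt (j + 1) - Real.sqrt j) ^ 2 / 2) →
      (((powersetCard k (Icc N (2 * N))).filter (fun I => ¬ AllQ N T C ε I)).card : ℝ) ≤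
        (N : ℝ) ^ (-A) * ((powersetCard k (Icc N (2 * N))).card : ℝ) := by
  obtain ⟨C, hC, h⟩ := Pool.Agent.Y959.Rs.lq_count ε A hε hA Q j hj
  refine ⟨C, hC, ?_⟩
  intro N T k hN hjT hTQ hk
  refine le_trans ?_ (h N T k hN hjT hTQ hk)
  have hsub : (powersetCard k (Icc N (2 * N))).filter (fun I => ¬ AllQ N T C ε I) ⊆
      (powersetCard k (Icc N (2 * N))).filter (fun I => ¬ Pool.Agent.Y959.Rs.LqAll N T C ε I) := by
    intro I hI
    rw [mem_filter] at hI ⊢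
    refine ⟨hI.1, fun hG => hI.2 ?_⟩
    intro b hb q hq
    refine (hG b hb q hq).trans (le_of_eq ?_)
    ring
  exact_mod_cast card_le_card hsub

end Pool.Agent.Results.MP_2a1f0e_nt.RandomSupports
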